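import Pool.Agent.Q193.SA.Data
import Pool.Agent.Q193.SA.One

set_option autoImplicit false

/-!
# Approximate semi-amenability of the Schatten classes

`𝔖_p(H)` (`SchattenAlg b p`, compact operators with `‖c‖_p = (tr |c|^p)^{1/p} < ∞` on a Hilbert
space with an orthonormal basis `b` indexed by `ℕ`, i.e. infinite dimensional and separable) is
approximately semi-amenable if and only if `p = 1`.
-/

namespace Pool.Agent.Results.MP_fc9cb6_an.SchattenIffOne

open Pool.Agent.Q193.SA

universe u

/-- For every infinite dimensional separable complex Hilbert space `H` and every `1 ≤ p < ∞`, the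
Banach algebra `𝔖_p(H)` is complete, and it is approximately semi-amenable exactly when `p = 1`. -/
theorem result {H : Type u} [NormedAddCommGroup H] [InnerProductSpace ℂ H] [CompleteSpace H]
    (b : HilbertBasis ℕ ℂ H) (p : ℝ) [hp : Fact (1 ≤ p)] :
    CompleteSpace (SchattenAlg b p) ∧ (ApproxSemiAmenable (SchattenAlg b p) ↔ p = 1) := by
  refine ⟨inferInstance, fun h => ?_, fun h => ?_⟩
  · by_contra hne
    exact not_semi (lt_of_le_of_ne hp.out (Ne.symm hne)) h
  · subst h
    exact semi_one

end Pool.Agent.Results.MP_fc9cb6_an.SchattenIffOne
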